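import Mathlib

/-!
# `ℓ_p` is not sequentially Buo-complete for `1 < p < ∞`

For `j` in the dyadic group `[2^L, 2^(L+1))` let `x_n(j) = a_L · #{i ≤ L : ⌊n/2^i⌋ = ⌊j/2^i⌋}` with
`a_L^p = 1 / (2^L (L+1)^(p+1))`. Then `x_j(j)^p = 1 / (2^L (L+1))`, so that the sequence is not order
bounded. If `(n_k)` increases strictly, then the `p`-th powers of the norms of the differences in
the group `L` add up to at most `C (L+1)^(-p)`, because each dyadic block is left only once.
-/

set_option autoImplicit false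

open Finset

namespace Pool.Agent.Results.MP_55c50e_an.NotComplete

/-- The sequences in `ℓ_p`. -/
def EllP (p : ℝ) : Set (ℕ → ℝ) := {x | Summable fun j => |x j| ^ p}

/-- Order convergence in the vector lattice `ℓ_p` of the sequence `(d_k)` to `l`: there are a
decreasing sequence `(z_m)` in the positive cone of `ℓ_p` with infimum `0` in `ℓ_p` and indices `N_m`
with `|d_k - l| ≤ z_m` for `k ≥ N_m`. -/
def OrderConv (p : ℝ) (d : ℕ → ℕ → ℝ) (l : ℕ → ℝ) : Prop :=
  ∃ z : ℕ → ℕ → ℝ, (∀ m, z m ∈ EllP p) ∧ Antitone z ∧ (∀ m, 0 ≤ z m) ∧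
    (∀ w ∈ EllP p, (∀ m, w ≤ z m) → w ≤ 0) ∧
    ∃ N : ℕ → ℕ, ∀ m k, N m ≤ k → ∀ j, |d k j - l j| ≤ z m j

/-- The sequence `(x_n)` is Buo-Cauchy in `ℓ_p`. -/
def BuoCauchy (p : ℝ) (x : ℕ → ℕ → ℝ) : Prop :=
  ∀ n : ℕ → ℕ, StrictMono n → OrderConv p (fun k => x (n (k + 1)) - x (n k)) 0

section

variable (p : ℝ)

/-- The weights. -/
noncomputable def a (L : ℕ) : ℝ := ((2 : ℝ) ^ L * (L + 1)) ^ (-(1 / p)) / (L + 1)

/-- The example. -/
noncomputable def x (n j : ℕ) : ℝ :=
  a p (Nat.log 2 j) * ∑ i ∈ range (Nat.log 2 j + 1), if n / 2 ^ i = j / 2 ^ i then (1 : ℝ) else 0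

theorem a_pos (L : ℕ) : 0 < a p L := by unfold a; positivity

theorem a_rpow (hp : 1 < p) (L : ℕ) :
    a p L ^ p = ((2 : ℝ) ^ L * (L + 1))⁻¹ / ((L : ℝ) + 1) ^ p := by
  unfold a
  rw [Real.div_rpow (by positivity) (by positivity), ← Real.rpow_mul (by positivity)]
  have : -(1 / p) * p = -1 := by field_simp
  rw [this, Real.rpow_neg_one]

/-- The group `[2^L, 2^(L+1))`. -/
def G (L : ℕ) : Finset ℕ := Ico (2 ^ L) (2 ^ (L + 1))

theorem mem_G {L j : ℕ} : j ∈ G L ↔ 2 ^ L ≤ j ∧ j < 2 ^ (L + 1) := mem_Ico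

theorem log_of_mem {L j : ℕ} (h : j ∈ G L) : Nat.log 2 j = L := by
  rw [mem_G] at h
  exact Nat.log_eq_of_pow_le_of_lt_pow h.1 h.2

theorem div_eq_mono {n j i L : ℕ} (hi : i ≤ L) (h : n / 2 ^ i = j / 2 ^ i) :
    n / 2 ^ L = j / 2 ^ L := by
  have h1 : 2 ^ L = 2 ^ i * 2 ^ (L - i) := by rw [← pow_add, Nat.add_sub_cancel' hi]
  rw [h1, ← Nat.div_div_eq_div_mul, ← Nat.div_div_eq_div_mul, h]

theorem x_eq_zero {n j : ℕ} (h : 2 ^ (Nat.log 2 j + 1) ≤ n) : x p n j = 0 := by
  unfold x
  rw [Finset.sum_eq_zero, mul_zero]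
  intro i hi
  rw [if_neg]
  intro h1
  have h2 := div_eq_mono (Nat.lt_succ_iff.mp (mem_range.mp hi)) h1
  have h3 : j / 2 ^ Nat.log 2 j < 2 := by
    rw [Nat.div_lt_iff_lt_mul (by positivity), mul_comm, ← pow_succ]
    exact Nat.lt_pow_succ_log_self (by norm_num) j
  have h4 : 2 ≤ n / 2 ^ Nat.log 2 j := by
    rw [Nat.le_div_iff_mul_le (by positivity), mul_comm, ← pow_succ]
    exact h
  omega

theorem x_diag (j : ℕ) : x p j j = a p (Nat.log 2 j) * ((Nat.log 2 j : ℕ) + 1) := by
  unfold x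
  simp

/-- The norm on a finite set of coordinates. -/
noncomputable def Nm (s : Finset ℕ) (f : ℕ → ℝ) : ℝ := (∑ j ∈ s, |f j| ^ p) ^ (1 / p)

variable {p}

theorem Nm_zero (hp : 1 < p) (s : Finset ℕ) : Nm p s 0 = 0 := by
  unfold Nm
  have h1 : ∑ j ∈ s, |(0 : ℕ → ℝ) j| ^ p = 0 :=
    Finset.sum_eq_zero fun j _ => by simp [Real.zero_rpow (by linarith : p ≠ 0)]
  rw [h1, Real.zero_rpow]
  have : 0 < 1 / p := by positivity
  exact this.ne'

theorem Nm_add (hp : 1 < p) (s : Finset ℕ) (f g : ℕ → ℝ) :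
    Nm p s (f + g) ≤ Nm p s f + Nm p s g :=
  Real.Lp_add_le s f g hp.le

theorem Nm_sum (hp : 1 < p) (s : Finset ℕ) (T : Finset ℕ) (f : ℕ → ℕ → ℝ) :
    Nm p s (∑ i ∈ T, f i) ≤ ∑ i ∈ T, Nm p s (f i) :=
  Finset.le_sum_of_subadditive _ (Nm_zero hp s).le (Nm_add hp s) _ _

theorem Nm_neg (s : Finset ℕ) (f : ℕ → ℝ) : Nm p s (-f) = Nm p s f := by
  unfold Nm; simp

theorem Nm_smul (hp : 1 < p) (s : Finset ℕ) (f : ℕ → ℝ) {c : ℝ} (hc : 0 ≤ c) :
    Nm p s (c • f) = c * Nm p s f := by
  unfold Nm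
  have h1 : ∑ j ∈ s, |(c • f) j| ^ p = c ^ p * ∑ j ∈ s, |f j| ^ p := by
    rw [Finset.mul_sum]
    refine Finset.sum_congr rfl fun j _ => ?_
    rw [Pi.smul_apply, smul_eq_mul, abs_mul, abs_of_nonneg hc,
      Real.mul_rpow hc (abs_nonneg _)]
  rw [h1, Real.mul_rpow (by positivity) (Finset.sum_nonneg fun _ _ => by positivity),
    ← Real.rpow_mul hc, mul_one_div_cancel (by linarith), Real.rpow_one]

theorem Nm_rpow (hp : 1 < p) (s : Finset ℕ) (f : ℕ → ℝ) :
    Nm p s f ^ p = ∑ j ∈ s, |f j| ^ p := by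
  unfold Nm
  rw [← Real.rpow_mul (Finset.sum_nonneg fun _ _ => by positivity), one_div,
    inv_mul_cancel₀ (by linarith), Real.rpow_one]

theorem Nm_nonneg (s : Finset ℕ) (f : ℕ → ℝ) : 0 ≤ Nm p s f := by
  unfold Nm
  exact Real.rpow_nonneg (Finset.sum_nonneg fun _ _ => by positivity) _

/-- The indicator of the dyadic block of size `2^i` containing `n`. -/
noncomputable def b (i n : ℕ) : ℕ → ℝ := fun j => if n / 2 ^ i = j / 2 ^ i then 1 else 0

/-- The ratio `2^(1/p)`. -/
noncomputable def r (p : ℝ) : ℝ := (2 : ℝ) ^ (1 / p)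

theorem one_lt_r (hp : 1 < p) : 1 < r p :=
  Real.one_lt_rpow (by norm_num) (by positivity)

theorem r_pow (hp : 1 < p) (i : ℕ) : (r p ^ i) ^ p = 2 ^ i := by
  unfold r
  rw [← Real.rpow_natCast ((2 : ℝ) ^ (1 / p)) i, ← Real.rpow_mul (by positivity),
    ← Real.rpow_mul (by positivity)]
  have : 1 / p * (i * p) = i := by field_simp
  rw [this, Real.rpow_natCast]

theorem r_pow' (i : ℕ) : ((2 : ℝ) ^ i) ^ (1 / p) = r p ^ i := by
  unfold r
  rw [← Real.rpow_natCast ((2 : ℝ) ^ (1 / p)) i, ← Real.rpow_mul (by norm_num), mul_comm,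
    Real.rpow_mul (by norm_num), Real.rpow_natCast]

theorem Nm_b (hp : 1 < p) (s : Finset ℕ) (i n : ℕ) : Nm p s (b i n) ≤ r p ^ i := by
  unfold Nm
  rw [← r_pow']
  refine Real.rpow_le_rpow (Finset.sum_nonneg fun _ _ => by positivity) ?_ (by positivity)
  have h1 : ∑ j ∈ s, |b i n j| ^ p = ((s.filter fun j => n / 2 ^ i = j / 2 ^ i).card : ℝ) := by
    rw [Finset.card_filter]
    push_cast
    refine Finset.sum_congr rfl fun j _ => ?_
    unfold b
    split_ifs
    · simp
    · simp [Real.zero_rpow (by linarith : p ≠ 0)]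
  rw [h1]
  have h2 : (s.filter fun j => n / 2 ^ i = j / 2 ^ i) ⊆
      Ico (n / 2 ^ i * 2 ^ i) ((n / 2 ^ i + 1) * 2 ^ i) := by
    intro j hj
    have h3 := (mem_filter.mp hj).2
    rw [mem_Ico, h3]
    exact ⟨Nat.div_mul_le_self _ _, by
      rw [add_mul, one_mul]; exact Nat.lt_div_mul_add (by positivity)⟩
  have h3 := card_le_card h2
  rw [Nat.card_Ico, add_mul, one_mul, Nat.add_sub_cancel_left] at h3
  exact_mod_cast h3

/-- Blocks are constant on the groups. -/
theorem b_eq_zero {L i n : ℕ} (hi : i ≤ L) (hn : n ∉ G L) : ∀ j ∈ G L, b i n j = 0 := by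
  intro j hj
  unfold b
  rw [if_neg]
  intro h
  apply hn
  have h1 := div_eq_mono hi h
  rw [mem_G] at hj ⊢
  have h2 : j / 2 ^ L = 1 := by
    rw [Nat.div_eq_iff (by positivity)]
    constructor
    · omega
    · have := hj.2; rw [pow_succ] at this; omega
  rw [h2] at h1
  rw [Nat.div_eq_iff (by positivity)] at h1
  constructor
  · omega
  · rw [pow_succ]; have : 0 < 2 ^ L := by positivity
    omega

theorem x_eq {L j : ℕ} (hj : j ∈ G L) (n : ℕ) :
    x p n j = (a p L • ∑ i ∈ range (L + 1), b i n) j := by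
  unfold x
  rw [log_of_mem hj, Pi.smul_apply, smul_eq_mul, Finset.sum_apply]
  rfl

theorem Nm_congr (s : Finset ℕ) {f g : ℕ → ℝ} (h : ∀ j ∈ s, f j = g j) : Nm p s f = Nm p s g := by
  unfold Nm
  rw [Finset.sum_congr rfl fun j hj => by rw [h j hj]]

/-- The scales at which `n` and `m` are separated, if one of them is in the group `L`. -/
def I (L n m : ℕ) : Finset ℕ :=
  (range (L + 1)).filter fun i => n / 2 ^ i ≠ m / 2 ^ i ∧ (n ∈ G L ∨ m ∈ G L)

theorem geom_le (hp : 1 < p) (t : ℕ) :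
    ∑ i ∈ range (t + 1), r p ^ i ≤ r p / (r p - 1) * r p ^ t := by
  have h1 := one_lt_r hp
  have h2 : 0 < r p - 1 := by linarith
  rw [geom_sum_eq h1.ne', div_le_iff₀ h2, pow_succ]
  have h3 : r p / (r p - 1) * r p ^ t * (r p - 1) = r p ^ t * r p := by field_simp
  rw [h3]
  linarith

/-- The norm of a difference in the group `L`. -/
theorem Nm_diff (hp : 1 < p) (L n m : ℕ) :
    Nm p (G L) (x p m - x p n) ^ p ≤
      (2 * a p L * (r p / (r p - 1))) ^ p * ∑ i ∈ I L n m, (2 : ℝ) ^ i := by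
  have hr := one_lt_r hp
  have hr1 : 0 < r p - 1 := by linarith
  have ha := a_pos p L
  have h1 : Nm p (G L) (x p m - x p n) ≤ a p L * ∑ i ∈ I L n m, 2 * r p ^ i := by
    have h2 : Nm p (G L) (x p m - x p n) =
        Nm p (G L) (a p L • ∑ i ∈ range (L + 1), (b i m - b i n)) := by
      refine Nm_congr _ fun j hj => ?_
      rw [Pi.sub_apply, x_eq hj, x_eq hj, Finset.sum_sub_distrib, smul_sub, Pi.sub_apply]
    rw [h2, Nm_smul hp _ _ ha.le]
    refine mul_le_mul_of_nonneg_left ?_ ha.le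
    refine (Nm_sum hp _ _ _).trans ?_
    rw [I, Finset.sum_filter]
    refine Finset.sum_le_sum fun i hi => ?_
    have hiL : i ≤ L := Nat.lt_succ_iff.mp (mem_range.mp hi)
    split_ifs with h3
    · rw [sub_eq_add_neg]
      refine (Nm_add hp _ _ _).trans ?_
      rw [Nm_neg]
      linarith [Nm_b hp (G L) i n, Nm_b hp (G L) i m]
    · refine le_of_eq ?_
      rw [← Nm_zero hp (G L)]
      refine Nm_congr _ fun j hj => ?_
      by_cases h4 : n / 2 ^ i = m / 2 ^ i
      · simp [b, h4]
      · have h5 : n ∉ G L ∧ m ∉ G L := by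
          constructor
          · intro h6; exact h3 ⟨h4, Or.inl h6⟩
          · intro h6; exact h3 ⟨h4, Or.inr h6⟩
        rw [Pi.sub_apply, b_eq_zero hiL h5.1 j hj, b_eq_zero hiL h5.2 j hj]
        simp
  rcases (I L n m).eq_empty_or_nonempty with h0 | h0
  · rw [h0] at h1 ⊢
    rw [Finset.sum_empty, mul_zero] at h1 ⊢
    have h2 : Nm p (G L) (x p m - x p n) = 0 := le_antisymm h1 (Nm_nonneg _ _)
    rw [h2, Real.zero_rpow (by linarith)]
  · set t := (I L n m).max' h0 with ht
    have htI : t ∈ I L n m := Finset.max'_mem _ _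
    have h2 : ∑ i ∈ I L n m, 2 * r p ^ i ≤ 2 * (r p / (r p - 1) * r p ^ t) := by
      rw [← Finset.mul_sum]
      refine mul_le_mul_of_nonneg_left (le_trans ?_ (geom_le hp t)) (by norm_num)
      refine Finset.sum_le_sum_of_subset_of_nonneg (fun i hi => ?_) fun i _ _ => by positivity
      exact mem_range.mpr (Nat.lt_succ_iff.mpr (Finset.le_max' _ _ hi))
    have h3 : Nm p (G L) (x p m - x p n) ≤ 2 * a p L * (r p / (r p - 1)) * r p ^ t := by
      refine h1.trans ((mul_le_mul_of_nonneg_left h2 ha.le).trans (le_of_eq ?_))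
      ring
    calc Nm p (G L) (x p m - x p n) ^ p
        ≤ (2 * a p L * (r p / (r p - 1)) * r p ^ t) ^ p :=
          Real.rpow_le_rpow (Nm_nonneg _ _) h3 (by linarith)
      _ = (2 * a p L * (r p / (r p - 1))) ^ p * (2 : ℝ) ^ t := by
          rw [Real.mul_rpow (by positivity) (by positivity), r_pow hp]
      _ ≤ _ := by
          refine mul_le_mul_of_nonneg_left ?_ (by positivity)
          exact Finset.single_le_sum (f := fun i => (2 : ℝ) ^ i) (fun i _ => by positivity) htI

/-- Each block is left at most once. -/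
theorem count_le (n : ℕ → ℕ) (hn : StrictMono n) (s : Finset ℕ) (L i : ℕ) (hi : i ≤ L) :
    (s.filter fun k => i ∈ I L (n k) (n (k + 1))).card ≤ 2 * 2 ^ (L - i) := by
  classical
  have hG : ∀ m ∈ G L, m / 2 ^ i ∈ Ico (2 ^ (L - i)) (2 ^ (L - i) + 2 ^ (L - i)) := by
    intro m hm
    rw [mem_G] at hm
    rw [mem_Ico]
    have h1 : 2 ^ L = 2 ^ (L - i) * 2 ^ i := by rw [← pow_add, Nat.sub_add_cancel hi]
    constructor
    · rw [Nat.le_div_iff_mul_le (by positivity), ← h1]; exact hm.1
    · rw [Nat.div_lt_iff_lt_mul (by positivity), add_mul, ← h1]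
      have := hm.2; rw [pow_succ] at this; omega
  have hlt : ∀ k, i ∈ I L (n k) (n (k + 1)) → n k / 2 ^ i < n (k + 1) / 2 ^ i := by
    intro k hk
    have h1 := (mem_filter.mp hk).2.1
    exact lt_of_le_of_ne (Nat.div_le_div_right (hn (Nat.lt_succ_self k)).le) h1
  have hmono : ∀ k l, k ≤ l → n k / 2 ^ i ≤ n l / 2 ^ i := fun k l hkl =>
    Nat.div_le_div_right (hn.monotone hkl)
  set A := s.filter fun k => i ∈ I L (n k) (n (k + 1)) ∧ n k ∈ G L with hA
  set B := s.filter fun k => i ∈ I L (n k) (n (k + 1)) ∧ n (k + 1) ∈ G L with hB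
  have hsub : (s.filter fun k => i ∈ I L (n k) (n (k + 1))) ⊆ A ∪ B := by
    intro k hk
    rw [mem_filter] at hk
    rw [mem_union, hA, hB, mem_filter, mem_filter]
    rcases (mem_filter.mp hk.2).2.2 with h | h
    · exact Or.inl ⟨hk.1, hk.2, h⟩
    · exact Or.inr ⟨hk.1, hk.2, h⟩
  have hAc : A.card ≤ 2 ^ (L - i) := by
    have h1 : A.card ≤ (Ico (2 ^ (L - i)) (2 ^ (L - i) + 2 ^ (L - i))).card := by
      refine Finset.card_le_card_of_injOn (fun k => n k / 2 ^ i) ?_ ?_
      · intro k hk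
        exact hG _ (mem_filter.mp hk).2.2
      · intro k hk l hl hkl
        simp only at hkl
        rcases lt_trichotomy k l with h | h | h
        · have h1 := hlt k (mem_filter.mp hk).2.1
          have h2 := hmono (k + 1) l h
          omega
        · exact h
        · have h1 := hlt l (mem_filter.mp hl).2.1
          have h2 := hmono (l + 1) k h
          omega
    simpa using h1
  have hBc : B.card ≤ 2 ^ (L - i) := by
    have h1 : B.card ≤ (Ico (2 ^ (L - i)) (2 ^ (L - i) + 2 ^ (L - i))).card := by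
      refine Finset.card_le_card_of_injOn (fun k => n (k + 1) / 2 ^ i) ?_ ?_
      · intro k hk
        exact hG _ (mem_filter.mp hk).2.2
      · intro k hk l hl hkl
        simp only at hkl
        rcases lt_trichotomy k l with h | h | h
        · have h1 := hlt l (mem_filter.mp hl).2.1
          have h2 := hmono (k + 1) l h
          omega
        · exact h
        · have h1 := hlt k (mem_filter.mp hk).2.1
          have h2 := hmono (l + 1) k h
          omega
    simpa using h1
  have := (card_le_card hsub).trans (card_union_le A B)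
  omega

/-- The estimate of all differences in the group `L`. -/
theorem group_le (hp : 1 < p) (n : ℕ → ℕ) (hn : StrictMono n) (s : Finset ℕ) (L : ℕ) :
    ∑ j ∈ G L, ∑ k ∈ s, |x p (n (k + 1)) j - x p (n k) j| ^ p ≤
      2 * (2 * (r p / (r p - 1))) ^ p * ((L + 1 : ℕ) : ℝ) ^ (-p) := by
  have hr := one_lt_r hp
  have hr1 : 0 < r p - 1 := by linarith
  have ha := a_pos p L
  rw [Finset.sum_comm]
  have h1 : ∀ k, ∑ j ∈ G L, |x p (n (k + 1)) j - x p (n k) j| ^ p ≤
      (2 * a p L * (r p / (r p - 1))) ^ p * ∑ i ∈ I L (n k) (n (k + 1)), (2 : ℝ) ^ i := by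
    intro k
    have := Nm_diff hp L (n k) (n (k + 1))
    rw [Nm_rpow hp] at this
    exact this
  refine (Finset.sum_le_sum fun k _ => h1 k).trans ?_
  rw [← Finset.mul_sum]
  have h2 : ∑ k ∈ s, ∑ i ∈ I L (n k) (n (k + 1)), (2 : ℝ) ^ i ≤ 2 * ((L + 1 : ℕ) : ℝ) * 2 ^ L := by
    have h3 : ∑ k ∈ s, ∑ i ∈ I L (n k) (n (k + 1)), (2 : ℝ) ^ i =
        ∑ i ∈ range (L + 1), ∑ k ∈ s.filter (fun k => i ∈ I L (n k) (n (k + 1))), (2 : ℝ) ^ i := by
      have h4 : ∀ k, ∑ i ∈ I L (n k) (n (k + 1)), (2 : ℝ) ^ i =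
          ∑ i ∈ range (L + 1), if i ∈ I L (n k) (n (k + 1)) then (2 : ℝ) ^ i else 0 := by
        intro k
        rw [← Finset.sum_filter]
        congr 1
        ext i
        simp only [I, mem_filter]
        tauto
      simp only [h4]
      rw [Finset.sum_comm]
      refine Finset.sum_congr rfl fun i _ => ?_
      rw [Finset.sum_filter]
    rw [h3]
    calc ∑ i ∈ range (L + 1), ∑ k ∈ s.filter (fun k => i ∈ I L (n k) (n (k + 1))), (2 : ℝ) ^ i
        ≤ ∑ i ∈ range (L + 1), (2 * 2 ^ L : ℝ) := by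
          refine Finset.sum_le_sum fun i hi => ?_
          have hiL : i ≤ L := Nat.lt_succ_iff.mp (mem_range.mp hi)
          rw [Finset.sum_const, nsmul_eq_mul]
          have h5 : ((s.filter fun k => i ∈ I L (n k) (n (k + 1))).card : ℝ) ≤
              2 * 2 ^ (L - i) := by exact_mod_cast count_le n hn s L i hiL
          calc _ ≤ (2 * 2 ^ (L - i) : ℝ) * 2 ^ i := by gcongr
            _ = 2 * 2 ^ L := by
                rw [mul_assoc, ← pow_add, Nat.sub_add_cancel hiL]
      _ = _ := by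
          rw [Finset.sum_const, card_range, nsmul_eq_mul]; ring
  refine (mul_le_mul_of_nonneg_left h2 (by positivity)).trans (le_of_eq ?_)
  have h3 : 2 * a p L * (r p / (r p - 1)) = (2 * (r p / (r p - 1))) * a p L := by ring
  rw [h3, Real.mul_rpow (by positivity) ha.le, a_rpow p hp, Real.rpow_neg (by positivity)]
  push_cast
  field_simp

theorem sum_range_pow (f : ℕ → ℝ) (M : ℕ) :
    ∑ j ∈ range (2 ^ M), f j = f 0 + ∑ L ∈ range M, ∑ j ∈ G L, f j := by
  induction M with
  | zero => simp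
  | succ M ih =>
    rw [Finset.sum_range_succ, ← add_assoc, ← ih, G, Finset.sum_range_add_sum_Ico]
    exact Nat.pow_le_pow_right (by norm_num) (Nat.le_succ M)

end

theorem x_mem {p : ℝ} (hp : 1 < p) (n : ℕ) : x p n ∈ EllP p := by
  refine summable_of_hasFiniteSupport (Set.Finite.subset
    (Finset.finite_toSet (range (2 * n + 2 ^ (Nat.log 2 n + 2)))) fun j hj => ?_)
  by_contra hcon
  apply hj
  simp only [coe_range, Set.mem_Iio, not_lt] at hcon
  have h1 : x p n j = 0 := by
    unfold x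
    rw [Finset.sum_eq_zero, mul_zero]
    intro i hi
    rw [if_neg]
    intro h1
    have h2 := div_eq_mono (Nat.lt_succ_iff.mp (mem_range.mp hi)) h1
    have hj0 : j ≠ 0 := by
      have : 0 < 2 ^ (Nat.log 2 n + 2) := by positivity
      omega
    have h3 : 2 ^ Nat.log 2 j ≤ j := Nat.pow_log_le_self 2 hj0
    have h5 : j < 2 ^ (Nat.log 2 j + 1) := Nat.lt_pow_succ_log_self (by norm_num) j
    have h6 : 1 ≤ j / 2 ^ Nat.log 2 j := by
      rw [Nat.le_div_iff_mul_le (by positivity)]; omega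
    have h7 : n / 2 ^ Nat.log 2 j = 0 := by
      apply Nat.div_eq_of_lt
      rw [pow_succ] at h5
      have h8 : 0 < 2 ^ (Nat.log 2 n + 2) := by positivity
      omega
    omega
  change |x p n j| ^ p = 0
  rw [h1, abs_zero, Real.zero_rpow (by linarith)]

/-- **Result.** For every `p` in `(1, ∞)` there is a sequence in `ℓ_p` which is Buo-Cauchy but has no
order limit in `ℓ_p`; thus `ℓ_p` is not sequentially Buo-complete. -/
theorem result (p : ℝ) (hp : 1 < p) : ∃ x : ℕ → ℕ → ℝ, (∀ n, x n ∈ EllP p) ∧ BuoCauchy p x ∧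
    ¬ ∃ l ∈ EllP p, OrderConv p x l := by
  have hp0 : p ≠ 0 := by linarith
  refine ⟨x p, x_mem hp, ?_, ?_⟩
  · intro n hn
    set y : ℕ → ℝ := fun j => (∑ k ∈ range (2 ^ (Nat.log 2 j + 1)),
      |x p (n (k + 1)) j - x p (n k) j| ^ p) ^ (1 / p) with hy
    have hy0 : ∀ j, 0 ≤ y j := fun j =>
      Real.rpow_nonneg (Finset.sum_nonneg fun _ _ => by positivity) _
    have hyp : ∀ j, |y j| ^ p = ∑ k ∈ range (2 ^ (Nat.log 2 j + 1)),
        |x p (n (k + 1)) j - x p (n k) j| ^ p := fun j => by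
      rw [abs_of_nonneg (hy0 j), hy]
      simp only
      rw [← Real.rpow_mul (Finset.sum_nonneg fun _ _ => by positivity), one_div,
        inv_mul_cancel₀ hp0, Real.rpow_one]
    have hle : ∀ k j, |x p (n (k + 1)) j - x p (n k) j| ≤ y j := by
      intro k j
      by_cases hk : k < 2 ^ (Nat.log 2 j + 1)
      · have h1 := Finset.single_le_sum
          (f := fun k => |x p (n (k + 1)) j - x p (n k) j| ^ p)
          (fun _ _ => by positivity) (mem_range.mpr hk)
        rw [← hyp, abs_of_nonneg (hy0 j)] at h1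
        exact (Real.rpow_le_rpow_iff (abs_nonneg _) (hy0 j) (by linarith)).mp h1
      · push Not at hk
        have h1 : k ≤ n k := hn.id_le k
        have h2 : k + 1 ≤ n (k + 1) := hn.id_le (k + 1)
        rw [x_eq_zero p (by omega), x_eq_zero p (by omega), sub_zero, abs_zero]
        exact hy0 j
    have hymem : y ∈ EllP p := by
      change Summable fun j => |y j| ^ p
      have hsum : Summable fun L : ℕ => 2 * (2 * (r p / (r p - 1))) ^ p *
          ((L + 1 : ℕ) : ℝ) ^ (-p) := by
        refine Summable.mul_left _ ?_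
        exact (summable_nat_add_iff 1).mpr (Real.summable_nat_rpow.mpr (by linarith))
      have hr := one_lt_r hp
      have hr1 : 0 < r p - 1 := by linarith
      refine summable_of_sum_range_le (c := |y 0| ^ p + ∑' L : ℕ,
        2 * (2 * (r p / (r p - 1))) ^ p * ((L + 1 : ℕ) : ℝ) ^ (-p)) (fun j => by positivity) ?_
      intro M
      calc ∑ j ∈ range M, |y j| ^ p ≤ ∑ j ∈ range (2 ^ M), |y j| ^ p :=
            Finset.sum_le_sum_of_subset_of_nonneg (range_subset_range.mpr Nat.lt_two_pow_self.le)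
              fun _ _ _ => by positivity
        _ = |y 0| ^ p + ∑ L ∈ range M, ∑ j ∈ G L, |y j| ^ p := sum_range_pow _ M
        _ ≤ |y 0| ^ p + ∑ L ∈ range M, 2 * (2 * (r p / (r p - 1))) ^ p *
              ((L + 1 : ℕ) : ℝ) ^ (-p) := by
            gcongr with L _
            have h1 := group_le hp n hn (range (2 ^ (L + 1))) L
            refine le_trans (le_of_eq ?_) h1
            refine Finset.sum_congr rfl fun j hj => ?_
            rw [hyp, log_of_mem hj]
        _ ≤ _ := by
            gcongr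
            exact hsum.sum_le_tsum _ fun L _ => by positivity
    refine ⟨fun m j => if m ≤ j then y j else 0, fun m => ?_, ?_, fun m j => ?_, ?_,
      fun m => 2 * m + 2, ?_⟩
    · refine Summable.of_nonneg_of_le (fun j => by positivity) (fun j => ?_) hymem
      change |if m ≤ j then y j else 0| ^ p ≤ |y j| ^ p
      split_ifs
      · exact le_rfl
      · rw [abs_zero, Real.zero_rpow hp0]; positivity
    · intro m m' hm j
      simp only
      split_ifs with h1 h2
      · exact le_rfl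
      · omega
      · exact hy0 j
      · exact le_rfl
    · simp only [Pi.zero_apply]
      split_ifs
      · exact hy0 j
      · exact le_rfl
    · intro w _ hw j
      have := hw (j + 1) j
      simp only [Nat.succ_le_iff, lt_irrefl, if_false] at this
      exact this
    · intro m k hk j
      have hk' : 2 * m + 2 ≤ k := hk
      simp only [Pi.sub_apply, Pi.zero_apply, sub_zero]
      split_ifs with h1
      · exact hle k j
      · push Not at h1
        have h2 : k ≤ n k := hn.id_le k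
        have h3 : k + 1 ≤ n (k + 1) := hn.id_le (k + 1)
        have h4 : 2 ^ (Nat.log 2 j + 1) ≤ 2 * m + 2 := by
          rcases Nat.eq_zero_or_pos j with rfl | hj
          · simp
          · have := Nat.pow_log_le_self 2 hj.ne'
            rw [pow_succ]; omega
        rw [x_eq_zero p (by omega), x_eq_zero p (by omega), sub_zero, abs_zero]
  · rintro ⟨l, hl, z, hz, -, hz0, -, N, hN⟩
    have hle : ∀ j, N 0 ≤ j → |x p j j| ≤ |l j| + |z 0 j| := by
      intro j hj
      have h1 := hN 0 j hj j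
      have h2 := abs_add_le (x p j j - l j) (l j)
      rw [sub_add_cancel] at h2
      have h3 : |z 0 j| = z 0 j := abs_of_nonneg (hz0 0 j)
      linarith
    have hsum : Summable fun j => (2 : ℝ) ^ p * (|l j| ^ p + |z 0 j| ^ p) :=
      (Summable.add hl (hz 0)).mul_left _
    have hle2 : ∀ j, N 0 ≤ j → |x p j j| ^ p ≤ 2 ^ p * (|l j| ^ p + |z 0 j| ^ p) := by
      intro j hj
      refine (Real.rpow_le_rpow (abs_nonneg _) (hle j hj) (by linarith)).trans ?_
      have h1 : |l j| + |z 0 j| ≤ 2 * max |l j| |z 0 j| := by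
        have := le_max_left |l j| |z 0 j|
        have := le_max_right |l j| |z 0 j|
        linarith
      refine (Real.rpow_le_rpow (by positivity) h1 (by linarith)).trans ?_
      rw [Real.mul_rpow (by norm_num) (le_max_of_le_left (abs_nonneg _))]
      refine mul_le_mul_of_nonneg_left ?_ (by positivity)
      rcases le_total |l j| |z 0 j| with h | h
      · rw [max_eq_right h]; exact le_add_of_nonneg_left (by positivity)
      · rw [max_eq_left h]; exact le_add_of_nonneg_right (by positivity)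
    have hs1 : Summable fun j => |x p j j| ^ p := by
      rw [← summable_nat_add_iff (N 0)]
      refine Summable.of_nonneg_of_le (fun j => by positivity)
        (fun j => hle2 (j + N 0) (by omega)) ?_
      exact (summable_nat_add_iff (N 0)).mpr hsum
    have hval : ∀ j, |x p j j| ^ p = ((2 : ℝ) ^ Nat.log 2 j * ((Nat.log 2 j : ℕ) + 1))⁻¹ := by
      intro j
      have ha := a_pos p (Nat.log 2 j)
      rw [x_diag, abs_of_nonneg (by positivity), Real.mul_rpow ha.le (by positivity), a_rpow p hp]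
      field_simp
    have hs2 := hs1.congr fun j => (hval j)
    have hs3 := (summable_condensed_iff_of_nonneg (f := fun j : ℕ =>
      ((2 : ℝ) ^ Nat.log 2 j * ((Nat.log 2 j : ℕ) + 1))⁻¹) (fun j => by positivity) (by
        intro m n _ hmn
        have h1 : Nat.log 2 m ≤ Nat.log 2 n := Nat.log_mono_right hmn
        have h2 : ((Nat.log 2 m : ℕ) : ℝ) ≤ (Nat.log 2 n : ℕ) := by exact_mod_cast h1
        have h3 : (2 : ℝ) ^ Nat.log 2 m ≤ 2 ^ Nat.log 2 n :=
          pow_le_pow_right₀ (by norm_num) h1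
        gcongr)).mpr hs2
    have hs4 : Summable fun k : ℕ => 1 / ((k + 1 : ℕ) : ℝ) := by
      refine hs3.congr fun k => ?_
      rw [Nat.log_pow (by norm_num)]
      push_cast
      field_simp
    exact Real.not_summable_one_div_natCast ((summable_nat_add_iff 1).mp hs4)

end Pool.Agent.Results.MP_55c50e_an.NotComplete
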